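import Pool.Agent.Q120.TT.Neg
import Pool.Agent.Q111.TT.ENTG
import Pool.Agent.Q150.TT.EXI
import Pool.Agent.Q150.TT.MEAN
import Pool.Agent.Q150.TT.MIXL
import Pool.Agent.Q150.TT.TAILT
import Pool.Agent.Q177.TT.ADP
import Pool.Agent.Q177.TT.THINK

/-!
# Three exact entropy thresholds for the Hardy–Littlewood tuples conjecture

The reference law is the sieved Cramér–Granville model of a level `z` (`z k → ∞`, `8 * z k ≤ k`): the elements `n` of
`[2 ^ k, 2 ^ (k + 1))` are chosen independently with probability `pr z n`, which is `1 / (V log n)` if no prime `p < z k`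
divides `n` (`V = ∏_{p < z k} (1 - 1/p)`), and `0` otherwise. `Near (pr z) d μ A`: `A` is ANY random set of integers which
almost surely only contains `n` with `pr z n > 0`, and for all large `k` the relative entropy (nats) of the law of
`A ∩ [2 ^ k, 2 ^ (k + 1))` with respect to the reference law is at most `d k`.
-/

set_option autoImplicit false

namespace Pool.Agent.Results.MP_68a45e_nt.EntropyThresholdsForTuples

open Finset MeasureTheory Filter Pool.Agent.Q120.ET Pool.Agent.Q120.CL Pool.Agent.Q120.HL Pool.Agent.Q120.TT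
open scoped Topology

theorem jobs : Jobs where
  entg := Pool.Agent.Q111.TT.t_ENTG
  tailt := Pool.Agent.Q150.TT.t_TAILT
  mean := Pool.Agent.Q150.TT.t_MEAN
  adp := Pool.Agent.Q177.TT.t_ADP
  think := Pool.Agent.Q177.TT.t_THINK
  mixl := Pool.Agent.Q150.TT.t_MIXL
  exi := Pool.Agent.Q150.TT.t_EXI
  exc := Pool.Agent.Q150.TT.t_EXC

/-- For every level `z`, every set `D` of shifts with nonzero singular series and greatest element `H`, and all budgets `d`:
(1) the Hardy–Littlewood asymptotics hold almost surely for all laws iff `∑ d k * k ^ |D| / 2 ^ k < ∞`, iff almost surely all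
large blocks contain a tuple; otherwise almost surely infinitely many blocks contain none, for some law;
(2) they hold in probability in the single blocks for all laws iff `d k * k ^ |D| / 2 ^ k → 0`, iff the probability of a block
without tuples tends to `0` for all laws;
(3) almost surely there are infinitely many tuples, for all laws, iff `liminf d k * k ^ |D| / 2 ^ k = 0`;
(4) for some law with relative entropies at most `2 ^ k / k ^ (|D| + 1)` almost surely the Hardy–Littlewood asymptotics hold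
for all sets of fewer than `|D|` shifts, but infinitely many blocks contain no `n` with `n + D ⊆ A`. -/
theorem result (z : ℕ → ℕ) (hz : Tendsto z atTop atTop) (hz8 : ∀ᶠ k : ℕ in atTop, 8 * z k ≤ k) (D : Finset ℕ) (H : ℕ)
    (hHD : H ∈ D) (hH : ∀ h ∈ D, h ≤ H) (hSS : SS D ≠ 0) :
    (∀ d : ℕ → ℝ, (∀ k, 0 ≤ d k) →
      ((Summable (fun k : ℕ => d k * (k : ℝ) ^ D.card / 2 ^ k) ↔ AllNear (pr z) d (fun S => Asym S D)) ∧
        (Summable (fun k : ℕ => d k * (k : ℝ) ^ D.card / 2 ^ k) ↔
          AllNear (pr z) d (fun S => ∀ᶠ k in atTop, Hit S D H k)) ∧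
        (¬ Summable (fun k : ℕ => d k * (k : ℝ) ^ D.card / 2 ^ k) →
          SomeNear (pr z) d (fun S => ∃ᶠ k in atTop, ¬ Hit S D H k))) ∧
      ((Tendsto (fun k : ℕ => d k * (k : ℝ) ^ D.card / 2 ^ k) atTop (𝓝 0) ↔
          ∀ e : ℝ, 0 < e → VanNear (pr z) d (fun k S => Off D e k S)) ∧
        (Tendsto (fun k : ℕ => d k * (k : ℝ) ^ D.card / 2 ^ k) atTop (𝓝 0) ↔
          VanNear (pr z) d (fun k S => ¬ Hit S D H k))) ∧
      ((∀ c : ℝ, 0 < c → ∃ᶠ k : ℕ in atTop, d k * (k : ℝ) ^ D.card / 2 ^ k < c) ↔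
        AllNear (pr z) d (fun S => {n : ℕ | ∀ h ∈ D, n + h ∈ S}.Infinite))) ∧
    ∃ (Ω : Type) (_ : MeasurableSpace Ω) (μ : Measure Ω) (_ : IsProbabilityMeasure μ) (A : Ω → Set ℕ),
      Near (pr z) (fun k : ℕ => 2 ^ k / (k : ℝ) ^ (D.card + 1)) μ A ∧
        (∀ᵐ ω ∂μ, (∀ D' : Finset ℕ, D'.Nonempty → D'.card < D.card → Asym (A ω) D') ∧
          ∃ᶠ k in atTop, ¬ Hit (A ω) D H k) :=
  ⟨fun _ hd => ⟨part_one jobs hz hz8 hHD hH hSS hd, part_two jobs hz hz8 hHD hH hSS hd,
    part_three jobs hz hz8 hHD hH hSS⟩, part_four jobs hz hz8 hHD hH⟩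

end Pool.Agent.Results.MP_68a45e_nt.EntropyThresholdsForTuples
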