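import Pool.Agent.Q145.SZ.All

set_option autoImplicit false
set_option maxHeartbeats 4000000

/-!
# The Hardy-Littlewood formula for almost all long tuples, and the one obstruction

Let `N_s(X)` be the number of `X < n ≤ 2X` for which `n + s_1, ..., n + s_K` are all prime.  The
formula `N_s(X) ~ 𝔖(s) X / log^K X` is proved for almost all admissible `s ∈ [1, X]^K`, for tuples
whose length `K` grows with `X`:

* for every `X` and all `K ≤ A log log X`;
* for arbitrarily large `X` and all `K ≤ c log X / log log X`.  This is the natural range up to the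
  constant: for `K ≥ (1 + δ) log X / log log X` the number `X / log^K X` tends to `0`;
* for every `X`, if the formula fails for a `K ≤ c log X / log log X`, then there is an exceptional
  zero: a real zero `β > 1 - C log log X / log X` of a primitive quadratic character of conductor
  at most `exp (log X / log log X)`.
-/

namespace Pool.Agent.Results.MP_68a45e_nt.LongTuples

open Finset Filter

open scoped Classical

/-- The number of residue classes modulo `p` occupied by the tuple `s`. -/
def classes {K : ℕ} (s : Fin K → ℕ) (p : ℕ) : ℕ := (univ.image fun i => s i % p).card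

/-- The tuple does not occupy all the residue classes modulo any prime. -/
def Admissible {K : ℕ} (s : Fin K → ℕ) : Prop := ∀ p : ℕ, p.Prime → classes s p < p

/-- The partial products (primes up to `w`) of the singular series of the tuple. -/
noncomputable def partialSeries {K : ℕ} (s : Fin K → ℕ) (w : ℕ) : ℝ :=
  ∏ p ∈ (Icc 1 w).filter Nat.Prime, (1 - (classes s p : ℝ) / p) / (1 - 1 / (p : ℝ)) ^ K

/-- The singular series of the tuple: the limit of the partial products. -/
noncomputable def series {K : ℕ} (s : Fin K → ℕ) : ℝ := limUnder atTop (partialSeries s)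

/-- The number of `X < n ≤ 2 X` for which all the `n + s_i` are prime. -/
def count {K : ℕ} (X : ℕ) (s : Fin K → ℕ) : ℕ := ((Ioc X (2 * X)).filter fun n => ∀ i, (n + s i).Prime).card

/-- The admissible `K`-tuples in `[1, X]^K`. -/
noncomputable def tuples (X K : ℕ) : Finset (Fin K → ℕ) :=
  (Fintype.piFinset fun _ => Icc 1 X).filter Admissible

/-- The formula `count X s = 𝔖(s) X / log^K X` holds, with a relative error at most `ε`, for all but
a proportion at most `ε` of the admissible `K`-tuples in `[1, X]^K`. -/
def Formula (X K : ℕ) (ε : ℝ) : Prop :=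
  (((tuples X K).filter fun s =>
    ¬ (|count X s * Real.log X ^ K - series s * X| ≤ ε * (series s * X))).card : ℝ) ≤ ε * (tuples X K).card

/-- There is no exceptional zero at the scale `X`: the real zeros `β` of the primitive quadratic
characters of conductor `1 < r ≤ exp (log X / log log X)` are at most `1 - C log log X / log X`. -/
def NoExceptionalZero (C : ℝ) (X : ℕ) : Prop :=
  ∀ (r : ℕ) [NeZero r], 1 < r → (r : ℝ) ≤ Real.exp (Real.log X / Real.log (Real.log X)) →
    ∀ χ : DirichletCharacter ℂ r, χ.IsPrimitive → χ ^ 2 = 1 → ∀ β : ℝ, χ.LFunction β = 0 →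
      β ≤ 1 - C * (Real.log (Real.log X) / Real.log X)

open Pool.Agent.Q145.SZ

theorem formula_eq (X K : ℕ) (ε : ℝ) : Formula X K ε = HLK X K ε := by
  unfold Formula HLK
  have h : tuples X K = AT X K := by
    unfold tuples AT
    congr 1
  rw [h]
  rfl

/-- **Theorem.** (0) The singular series converges to a positive number for admissible tuples of
distinct positive integers.  (1) For every `X` the formula holds for almost all admissible
`K`-tuples, uniformly for `K ≤ A log log X`.  (2) For arbitrarily large `X` it holds uniformly for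
`K ≤ c log X / log log X`.  (3) For every large `X` it holds uniformly for
`K ≤ c log X / log log X`, unless there is an exceptional zero at the scale `X`. -/
theorem result :
    (∀ (K : ℕ) (s : Fin K → ℕ), Function.Injective s → (∀ i, 1 ≤ s i) → Admissible s →
      Tendsto (partialSeries s) atTop (nhds (series s)) ∧ 0 < series s) ∧
    (∀ A ε : ℝ, 0 < ε → ∀ᶠ X : ℕ in atTop, ∀ K : ℕ, (K : ℝ) ≤ A * Real.log (Real.log X) → Formula X K ε) ∧
    (∃ c : ℝ, 0 < c ∧ ∀ ε : ℝ, 0 < ε → ∃ᶠ X : ℕ in atTop,
      ∀ K : ℕ, (K : ℝ) ≤ c * (Real.log X / Real.log (Real.log X)) → Formula X K ε) ∧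
    (∃ c C : ℝ, 0 < c ∧ 0 < C ∧ ∀ ε : ℝ, 0 < ε → ∀ᶠ X : ℕ in atTop, NoExceptionalZero C X →
      ∀ K : ℕ, (K : ℝ) ≤ c * (Real.log X / Real.log (Real.log X)) → Formula X K ε) := by
  simp only [formula_eq]
  refine ⟨fun K s h1 h2 h3 => series_conv K s h1 h2 h3, case1 zr' Pool.Agent.Q111.SZ.t_PWB Pool.Agent.Q177.SZ.t_SIEG suf', case2 Pool.Agent.Q111.SZ.t_PWB suf' good', ?_⟩
  exact dich zr' Pool.Agent.Q111.SZ.t_PWB suf'

end Pool.Agent.Results.MP_68a45e_nt.LongTuples
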