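import Pool.Agent.Q253.Thin.Fixed

/-!
# Prime constellations with one member `q * prime`, `q` from one set with `O((log log x) ^ 2)` elements up to `x`

For every `k` there is one set `Q` of primes, with `O((log log x) ^ 2)` elements up to `x`, which serves for ALL
admissible tuples `m_1, ..., m_k`, all members `m_j` and all windows: with at least the order of magnitude
predicted by Hardy and Littlewood, `p` and `p + m_j` are prime while the other `p + m_i` have no small prime
factors; or, for a single `q ∈ Q`, `p` and `(p + m_j) / q` are prime while the other `p + m_i` have no small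
prime factors.

Libraries: `Y840.CT.GenF` (Chen's theorem for systems of shifts in windows, starting files), `Y151.HS.FLC`
(fundamental lemma in residue classes, starting files).
-/

set_option autoImplicit false

namespace Pool.Agent.Results.MP_68a45e_nt.ThinConstellations

open Finset Filter
open Pool.Agent.Y840.CT Pool.Agent.Q253.Thin

/-- The number of the residue classes modulo `q` occupied by `0, m_1, ..., m_k`. -/
def w {k : ℕ} (m : Fin k → ℕ) (q : ℕ) : ℕ := (insert 0 (univ.image (fun i => m i % q))).card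

/-- `∏ (1 - w(q) / q)` over the primes `q ≤ N`; it has the order of magnitude of `C_P / log ^ (k + 1) N`. -/
noncomputable def V {k : ℕ} (m : Fin k → ℕ) (N : ℕ) : ℝ :=
  ∏ q ∈ (Icc 1 N).filter Nat.Prime, (1 - (w m q : ℝ) / q)

/-- `p` is prime and all prime factors of all `p + m_i` are larger than `y`. -/
def Sifted {k : ℕ} (m : Fin k → ℕ) (y : ℝ) (p : ℕ) : Prop :=
  p.Prime ∧ ∀ i : Fin k, ∀ l : ℕ, l.Prime → l ∣ p + m i → y < l

/-- The number of the integers `u < p ≤ v` with the property `P`. -/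
noncomputable def count (P : ℕ → Prop) (u v : ℕ) : ℕ := {p : ℕ | u < p ∧ p ≤ v ∧ P p}.ncard

lemma card_le_count (P : ℕ → Prop) (u v : ℕ) (S : Finset ℕ)
    (hS : ∀ p ∈ S, u < p ∧ p ≤ v ∧ P p) : S.card ≤ count P u v := by
  classical
  unfold count
  rw [← Set.ncard_coe_finset]
  apply Set.ncard_le_ncard
  · intro x hx
    exact hS x (mem_coe.1 hx)
  · apply (finite_toSet (Ioc u v)).subset
    rintro x ⟨h1, h2, _⟩
    rw [mem_coe, mem_Ioc]
    exact ⟨h1, h2⟩

lemma card_mod (H : Finset ℤ) (q : ℕ) [NeZero q] :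
    (H.image (fun h : ℤ => h % q)).card = (H.image (fun h : ℤ => (h : ZMod q))).card := by
  classical
  have h1 : H.image (fun h : ℤ => h % q) = (H.image (fun h : ℤ => (h : ZMod q))).image (fun z => ((z.val : ℕ) : ℤ)) := by
    rw [image_image]
    apply image_congr
    intro h _
    simp only [Function.comp]
    rw [ZMod.val_intCast]
  rw [h1]
  apply card_image_of_injective
  intro a b hab
  simp only [Nat.cast_inj] at hab
  exact ZMod.val_injective q hab

/-- the shifts `-m_i` -/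
def sh {k : ℕ} (m : Fin k → ℕ) : Fin k → ℤ := fun i => -(m i : ℤ)

lemma w_eq {k : ℕ} (m : Fin k → ℕ) {q : ℕ} (hq : q.Prime) : rho (univ.image (sh m)) q = w m q := by
  classical
  have : NeZero q := ⟨hq.ne_zero⟩
  unfold rho w
  rw [card_mod]
  have h1 : (insert 0 (univ.image (sh m))).image (fun h : ℤ => (h : ZMod q)) =
      ((insert (0 : ℤ) (univ.image (fun i => (m i : ℤ)))).image (fun h : ℤ => (h : ZMod q))).image (fun z => -z) := by
    ext z
    simp only [sh, mem_image, mem_insert, mem_univ, true_and]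
    constructor
    · rintro ⟨h, h2 | ⟨i, rfl⟩, rfl⟩
      · exact ⟨0, ⟨0, Or.inl rfl, by simp⟩, by rw [h2]; simp⟩
      · exact ⟨(m i : ZMod q), ⟨m i, Or.inr ⟨i, rfl⟩, by simp⟩, by push_cast; rfl⟩
    · rintro ⟨z', ⟨h, h2 | ⟨i, rfl⟩, rfl⟩, rfl⟩
      · exact ⟨0, Or.inl rfl, by rw [h2]; simp⟩
      · exact ⟨-(m i : ℤ), Or.inr ⟨i, rfl⟩, by push_cast; rfl⟩
  rw [h1, card_image_of_injective _ neg_injective, ← card_mod]
  have h2 : (insert (0 : ℤ) (univ.image (fun i => (m i : ℤ)))).image (fun h : ℤ => h % q) =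
      (insert 0 (univ.image (fun i => m i % q))).image (fun c : ℕ => (c : ℤ)) := by
    rw [image_insert, image_insert, image_image, image_image]
    simp only [Int.zero_emod, Nat.cast_zero]
    congr 1
  rw [h2, card_image_of_injective _ Nat.cast_injective]

/-- For every `k ≥ 1` there are a set `Q` of primes with at most `C (log log x) ^ 2` elements up to `x` (for all
`x ≥ 16`), `t ≥ 1` and `c > 0` such that for every tuple `m_1, ..., m_k` of positive integers without local
obstruction (`0, m_1, ..., m_k` do not occupy all classes modulo any prime), every `j`, every `θ > 0`, all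
`N ≥ N₀` and all `0 ≤ u < v ≤ N` with `v - u ≥ θ N`, with `V(N) = ∏ (1 - w(q) / q)` over the primes `q ≤ N`,
where `V(N) ≥ c / log ^ (k + 1) N`:

at least `c (v - u) V(N)` integers `u < p ≤ v` are such that `p` and `p + m_j` are prime and no `p + m_i` has a prime factor
`≤ N ^ (1/t)`; or there is `q ∈ Q` with `N ^ (1/9) < q`, `q ^ 2 ≤ N + m_j` such that for at least `c (v - u) V(N) / q` integers
`u < p ≤ v` the numbers `p` and `(p + m_j) / q ≥ q` are prime and no `p + m_i` has a prime factor `≤ N ^ (1/t)`. -/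
theorem result (k : ℕ) : ∃ (t : ℕ) (Q : Set ℕ) (C c : ℝ), 1 ≤ t ∧ 0 < C ∧ 0 < c ∧ (∀ q ∈ Q, q.Prime) ∧
    (∀ x : ℕ, 16 ≤ x → ((Q ∩ Set.Iic x).ncard : ℝ) ≤ C * Real.log (Real.log x) ^ 2) ∧
    ∀ m : Fin k → ℕ, (∀ i, 0 < m i) → (∀ q : ℕ, q.Prime → w m q < q) →
      (∀ N : ℕ, 2 ≤ N → c / Real.log N ^ (k + 1) ≤ V m N) ∧
      ∀ j : Fin k, ∀ θ : ℝ, 0 < θ → ∃ N₀ : ℕ, ∀ N : ℕ, N₀ ≤ N → ∀ u v : ℕ, v ≤ N → θ * N ≤ (v : ℝ) - u →
        c * (((v : ℝ) - u) * V m N) ≤
          (count (fun p => Sifted m ((N : ℝ) ^ (1 / (t : ℝ))) p ∧ (p + m j).Prime) u v : ℝ) ∨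
        ∃ q ∈ Q, (N : ℝ) ^ (1 / 9 : ℝ) < q ∧ q ^ 2 ≤ N + m j ∧ c * (((v : ℝ) - u) * V m N / q) ≤
          (count (fun p => Sifted m ((N : ℝ) ^ (1 / (t : ℝ))) p ∧
            ∃ q' : ℕ, q'.Prime ∧ q ≤ q' ∧ p + m j = q * q') u v : ℝ) := by
  classical
  obtain ⟨t, ht, c0, hc0, ρ, hρ, hd⟩ := dich k
  obtain ⟨c, hc, C, hC, Q, hQp, hQc, hmain⟩ := thinFixed hc0 hρ hd
  obtain ⟨cV, hcV, hV⟩ := VF_low k
  refine ⟨t, Q, C, min c cV, ht, hC, by positivity, hQp, ?_, ?_⟩
  · intro x hx
    obtain ⟨S, hS, hSc⟩ := hQc x hx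
    have h1 : (Q ∩ Set.Iic x).ncard ≤ S.card := by
      rw [← Set.ncard_coe_finset]
      apply Set.ncard_le_ncard
      · rintro q ⟨hq, hqx⟩
        exact hS q hq hqx
      · exact finite_toSet S
    have h2 : ((Q ∩ Set.Iic x).ncard : ℝ) ≤ S.card := by exact_mod_cast h1
    exact h2.trans hSc
  intro m hm hloc
  have hVeq : ∀ N : ℕ, VF (FT (sh m)) N = V m N := by
    intro N
    unfold VF V
    apply prod_congr rfl
    intro q hq
    rw [show FT (sh m) q = univ.image (sh m) from rfl, w_eq m (mem_filter.1 hq).2]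
  have hloc' : ∀ q : ℕ, q.Prime → rho (univ.image (sh m)) q < q := fun q hq => by
    rw [w_eq m hq]
    exact hloc q hq
  have hcard' : ∀ q : ℕ, q.Prime → (FT (sh m) q).card ≤ k := fun q _ => by
    unfold FT
    exact card_image_le.trans (by simp)
  have hVlow : ∀ N : ℕ, 2 ≤ N → cV / Real.log N ^ (k + 1) ≤ V m N := by
    intro N hN
    rw [← hVeq]
    exact hV N hN (FT (sh m)) hcard' hloc'
  refine ⟨?_, ?_⟩
  · intro N hN
    refine le_trans ?_ (hVlow N hN)
    have : 0 < Real.log N := Real.log_pos (by exact_mod_cast (by omega : 1 < N))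
    exact div_le_div_of_nonneg_right (min_le_right _ _) (by positivity)
  intro j θ hθ
  have hadm : Adm k (sh m) j := by
    refine ⟨?_, hloc'⟩
    unfold sh
    have := hm j
    omega
  obtain ⟨X₀, hX₀⟩ := hmain (sh m) j hadm θ hθ
  refine ⟨max X₀ 2, ?_⟩
  intro N hN u v hv huv
  have n1 : X₀ ≤ N := (le_max_left _ _).trans hN
  have n2 : 2 ≤ N := (le_max_right _ _).trans hN
  have hN0 : (0 : ℝ) < N := by exact_mod_cast (by omega : 0 < N)
  have huv0 : (0 : ℝ) < (v : ℝ) - u := lt_of_lt_of_le (by positivity) huv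
  have hlN : 0 < Real.log N := Real.log_pos (by exact_mod_cast (by omega : 1 < N))
  have hVp : 0 < V m N := lt_of_lt_of_le (by positivity) (hVlow N n2)
  -- the good primes
  have hgood : ∀ p ∈ GoodF t N u v (FT (sh m)) (sh m j), u < p ∧ p ≤ v ∧ Sifted m ((N : ℝ) ^ (1 / (t : ℝ))) p ∧
      (sh m j - (p : ℤ)).natAbs = p + m j ∧ ∀ q : ℕ, q.Prime → q ∣ p + m j → (N : ℝ) ^ (1 / 9 : ℝ) < q := by
    intro p hp
    unfold GoodF at hp
    rw [mem_filter, mem_Ioc] at hp
    obtain ⟨⟨p1, p2⟩, pp, pt, ⟨pr1, pr2, pr3⟩, pF⟩ := hp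
    have hnat : ∀ i, (sh m i - (p : ℤ)).natAbs = p + m i := by
      intro i
      simp only [sh]
      omega
    refine ⟨p1, p2, ⟨pp, ?_⟩, hnat j, ?_⟩
    · intro i l hl hd
      by_contra hcon
      push Not at hcon
      apply pF l hl hcon (sh m i)
      · unfold FT
        exact mem_image_of_mem _ (mem_univ i)
      · rw [Int.natCast_dvd, hnat i]
        exact hd
    · intro q hq hd
      apply pr3 q hq
      rw [Int.natCast_dvd, hnat j]
      exact hd
  have key := hX₀ N n1 u v hv huv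
  rw [hVeq] at key
  have hmin1 : min c cV ≤ c := min_le_left _ _
  rcases key with h | ⟨q, hq, h⟩
  · left
    refine (mul_le_mul_of_nonneg_right hmin1 (by positivity)).trans (h.trans ?_)
    rw [Nat.cast_le]
    apply card_le_count
    intro p hp
    unfold PF at hp
    rw [mem_filter] at hp
    obtain ⟨a1, a2, a3, a4, a5⟩ := hgood p hp.1
    rw [a4] at hp
    exact ⟨a1, a2, a3, hp.2⟩
  · right
    have hqp := hQp q hq
    have hq0 : (0 : ℝ) < q := by exact_mod_cast hqp.pos
    have hRF : ∀ p ∈ RF t N u v (FT (sh m)) (sh m j) q, u < p ∧ p ≤ v ∧ (Sifted m ((N : ℝ) ^ (1 / (t : ℝ))) p ∧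
        ∃ q' : ℕ, q'.Prime ∧ q ≤ q' ∧ p + m j = q * q') ∧ (N : ℝ) ^ (1 / 9 : ℝ) < q := by
      intro p hp
      unfold RF at hp
      rw [mem_filter] at hp
      obtain ⟨hp1, q', hq', hqq', hpq⟩ := hp
      obtain ⟨a1, a2, a3, a4, a5⟩ := hgood p hp1
      rw [a4] at hpq
      exact ⟨a1, a2, ⟨a3, q', hq', hqq', hpq⟩, a5 q hqp (by rw [hpq]; exact Dvd.intro _ rfl)⟩
    have hlow : 0 < c * (((v : ℝ) - u) * V m N / q) := by positivity
    have hne : (RF t N u v (FT (sh m)) (sh m j) q).Nonempty := by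
      rw [← card_pos]
      exact_mod_cast lt_of_lt_of_le hlow h
    obtain ⟨p0, hp0⟩ := hne
    obtain ⟨b1, b2, ⟨b3, q', b4, b5, b6⟩, b7⟩ := hRF p0 hp0
    refine ⟨q, hq, b7, ?_, ?_⟩
    · have h1 : q ^ 2 ≤ q * q' := by
        rw [pow_two]
        exact Nat.mul_le_mul_left _ b5
      omega
    · refine (mul_le_mul_of_nonneg_right hmin1 (by positivity)).trans (h.trans ?_)
      rw [Nat.cast_le]
      apply card_le_count
      intro p hp
      obtain ⟨a1, a2, a3, _⟩ := hRF p hp
      exact ⟨a1, a2, a3⟩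

end Pool.Agent.Results.MP_68a45e_nt.ThinConstellations
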