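import Pool.Agent.Q259.AS.Tup3
import Pool.Agent.Q259.AS.FnA

/-!
# The asymptotic formula of Hardy and Littlewood for prime tuples: shifts near the dilates of typical points

Definitions used. `Pool.Agent.H373R2.T7.singZ a z`: the partial product over the primes `p ≤ z` of
`(1 - ν(p) / p) / (1 - 1 / p) ^ (s + 1)`, where `ν(p)` is the number of `r < p` for which `p` divides
`r (r + a 1) ... (r + a s)`; `Pool.Agent.H373R2.T7.tupleCount a N`: the sum of
`log p * ∏ i, log (p + a i)` over the primes `p ≤ N` for which all `p + a i` are primes;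
`Pool.Agent.H373R2.T7.Admissible a`: for every prime `p` there is an `r` such that `p` divides neither
`r` nor any `r + a i`; `Pool.Agent.H560R3.GB.primeTuples a N`: the number of primes `p ≤ N` for which
all `p + a i` are primes. `Pool.Agent.Q259.AS`: `SelfSim μ`: `μ` is a self-similar measure
`μ = ∑ p i * (f i)_* μ` of finitely many maps `f i x = ρ i * x + t i` with `0 < |ρ i| < 1` and `p i > 0`, not all with
the same fixed point (that is, `μ` is not a point mass; overlaps are allowed and the ratios are arbitrary);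
`FourLp μ`: the Fourier transform of `μ` belongs to `L^q` for some `q < ∞` (for instance because it is
`O(|t| ^ (-δ))` for some `δ > 0`).
-/

set_option autoImplicit false

namespace Pool.Agent.Results.MP_68a45e_nt.TypicalTuples

open MeasureTheory Filter Finset Pool.Agent.Q259.AS Pool.Agent.H560R3.GB
open Pool.Agent.H373R2.T7 (singZ tupleCount Admissible)

/-- The formula of Hardy and Littlewood for the shifts `a 1, ..., a s` and the primes up to `N`: the
singular series converges, its sum `S` predicts the weighted number of prime tuples with an error of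
at most `N / log ^ U N`, and, if the shifts are admissible, `S` is positive and `S N / log ^ (s + 1) N`
predicts the number of prime tuples with a relative error of at most `ε`. -/
def Holds {s : ℕ} (ε : ℝ) (U N : ℕ) (a : Fin s → ℕ) : Prop :=
  ∃ S : ℝ, Filter.Tendsto (fun z => singZ (fun i => (a i : ℤ)) z) Filter.atTop (nhds S) ∧
    |tupleCount (fun i => (a i : ℤ)) N - S * N| ≤ (N : ℝ) / Real.log N ^ U ∧
    (Admissible (fun i => (a i : ℤ)) → 0 < S ∧
      |(primeTuples a N : ℝ) - S * (N / Real.log N ^ (s + 1))| ≤ ε * (S * (N / Real.log N ^ (s + 1))))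

/-- Let `μ 1, ..., μ s` be probability measures on the line, each of which is self-similar and not a point mass, or
has a Fourier transform which belongs to some `L^q`, `q < ∞`. Let `a 1, a 2, ...` be positive real numbers with
`log (a k) ≥ k ^ ρ` for large `k`, where `ρ > 0`, and let `Y k` be arbitrary sets of at most `k ^ T` vectors `y` with
`|y i| ≤ B a k`. Then almost every point `x` with respect to the product measure has the following property. For all
`ε > 0`, `A`, `U` and `B₁`, for all large `k`, all `y` in `Y k`, all integers `h 1, ..., h s ≥ 0` with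
`|h i - (a k * x i + y i)| ≤ log (a k) ^ A` and all `N` with `a k / B₁ ≤ N ≤ B₁ a k`, the formula of Hardy and
Littlewood holds for the shifts `h 1, ..., h s` and the primes up to `N`. -/
theorem result (s B T : ℕ) (hs : 1 ≤ s) (μ : Fin s → Measure ℝ) [∀ i, IsProbabilityMeasure (μ i)]
    (hμ : ∀ i, SelfSim (μ i) ∨ FourLp (μ i)) (a : ℕ → ℝ) (ρ : ℝ) (hρ : 0 < ρ)
    (ha : ∀ᶠ k : ℕ in atTop, 0 < a k ∧ (k : ℝ) ^ ρ ≤ Real.log (a k))
    (Y : ℕ → Finset (Fin s → ℝ)) (hY : ∀ᶠ k : ℕ in atTop, (Y k).card ≤ k ^ T ∧ ∀ y ∈ Y k, ∀ i, |y i| ≤ B * a k) :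
    ∀ᵐ x ∂(Measure.pi μ), ∀ ε : ℝ, 0 < ε → ∀ A U B₁ : ℕ, ∀ᶠ k : ℕ in atTop, ∀ y ∈ Y k, ∀ h : Fin s → ℕ,
      (∀ i, |(h i : ℝ) - (a k * x i + y i)| ≤ Real.log (a k) ^ A) →
      ∀ N : ℕ, a k ≤ B₁ * N → (N : ℝ) ≤ B₁ * a k → Holds ε U N h := by
  classical
  have h1 : ∀ m A U B₁ : ℕ, ∀ᵐ x ∂(Measure.pi μ), ∀ᶠ k : ℕ in atTop, ∀ y ∈ Y k, ∀ n ∈ {h : Fin s → ℤ | (∀ i, 0 ≤ h i) ∧
      ¬ ∀ N : ℕ, ⌈a k⌉₊ ≤ (2 * B₁ + 2) * N → N ≤ (2 * B₁ + 2) * ⌈a k⌉₊ →
        Pool.Agent.W93.TD.HLs (1 / ((m : ℝ) + 1)) U N (fun i => (h i).toNat)},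
      ∃ i, Real.log (a k) ^ A < |(n i : ℝ) - (a k * x i + y i)| := by
    intro m A U B₁
    refine as_of μ (rare_of (eng_tuples s (2 * B₁ + 2) U hs (by omega) (1 / ((m : ℝ) + 1)) (by positivity)) μ
      (fun i => niceM_of (μ i) (hμ i))) a ρ hρ
      (ha.mono fun k h => h.2) (ha.mono fun k h => h.1) T A (B + 4 * (2 * B₁ + 2)) Y (hY.mono fun k h => h.1)
      (fun _ y => y) ?_ (fun k _ => ⌈a k⌉₊) ?_
    · filter_upwards [hY, ha] with k h h2 y hy i
      refine (h.2 y hy i).trans (mul_le_mul_of_nonneg_right ?_ h2.1.le)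
      push_cast
      have : (0 : ℝ) ≤ B₁ := Nat.cast_nonneg _
      linarith
    · filter_upwards [sizes_ev a ρ hρ ha 1] with k h y _
      have h3 := Nat.le_ceil (a k)
      have ha0 : 0 < a k := by linarith [h.2.2]
      have h4 := Nat.ceil_lt_add_one ha0.le
      have h5 : (0 : ℝ) ≤ B := Nat.cast_nonneg B
      have h6 : (0 : ℝ) ≤ B₁ := Nat.cast_nonneg B₁
      push_cast
      constructor
      · have e1 : (⌈a k⌉₊ : ℝ) ≤ (B + 4 * (2 * B₁ + 2)) * (2 * (2 * B₁ + 2) * ⌈a k⌉₊) := by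
          have f1 : (1 : ℝ) ≤ (B + 4 * (2 * B₁ + 2)) * (2 * (2 * B₁ + 2)) := by nlinarith
          have f2 : (0 : ℝ) ≤ ⌈a k⌉₊ := Nat.cast_nonneg _
          nlinarith
        linarith
      · have e1 : (⌈a k⌉₊ : ℝ) ≤ 2 * a k := by linarith [h.2.2]
        calc 2 * (2 * (B₁ : ℝ) + 2) * ⌈a k⌉₊ ≤ 2 * (2 * (B₁ : ℝ) + 2) * (2 * a k) :=
              mul_le_mul_of_nonneg_left e1 (by positivity)
          _ = (4 * (2 * B₁ + 2)) * a k := by ring
          _ ≤ (B + 4 * (2 * B₁ + 2)) * a k := mul_le_mul_of_nonneg_right (by linarith) ha0.le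
  have h2 := ae_all_iff.2 (fun m => ae_all_iff.2 (fun A => ae_all_iff.2 (fun U => ae_all_iff.2 (h1 m A U))))
  filter_upwards [h2] with x hx ε hε A U B₁
  obtain ⟨m, hm⟩ := exists_nat_one_div_lt hε
  filter_upwards [hx m A U B₁, sizes_ev a ρ hρ ha 1] with k hk hsz y hy h hnear N hN1 hN2
  have ha0 : 0 < a k := by linarith [hsz.2.2]
  have h3 := Nat.le_ceil (a k)
  have h4 := Nat.ceil_lt_add_one ha0.le
  have hHL : Pool.Agent.W93.TD.HLs (1 / ((m : ℝ) + 1)) U N h := by
    by_contra hcon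
    obtain ⟨i, hi⟩ := hk y hy (fun i => (h i : ℤ)) (by
      refine ⟨fun i => Int.natCast_nonneg _, fun hall => hcon ?_⟩
      have h5 := hall N (by
        have e1 : ((⌈a k⌉₊ : ℕ) : ℝ) ≤ (((2 * B₁ + 2) * N : ℕ) : ℝ) := by
          push_cast
          have : (0 : ℝ) ≤ N := Nat.cast_nonneg _
          have : (1 : ℝ) < a k := hsz.2.2
          nlinarith
        exact_mod_cast e1) (by
        have e1 : ((N : ℕ) : ℝ) ≤ (((2 * B₁ + 2) * ⌈a k⌉₊ : ℕ) : ℝ) := by
          push_cast
          have f1 : (0 : ℝ) ≤ B₁ := Nat.cast_nonneg _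
          nlinarith
        exact_mod_cast e1)
      simpa using h5)
    have h6 := hnear i
    push_cast at hi
    linarith
  obtain ⟨S, q1, q2, q3⟩ := hHL
  refine ⟨S, q1, q2, fun hadm => ?_⟩
  obtain ⟨q4, q5⟩ := q3 hadm
  refine ⟨q4, q5.trans (mul_le_mul_of_nonneg_right hm.le ?_)⟩
  have hN1 : (1 : ℝ) ≤ N ∨ (N : ℝ) = 0 := by
    rcases Nat.eq_zero_or_pos N with h7 | h7
    · right; rw [h7]; simp
    · left; exact_mod_cast h7
  have : 0 ≤ (N : ℝ) / Real.log N ^ (s + 1) := by
    apply div_nonneg (Nat.cast_nonneg _)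
    exact pow_nonneg (Real.log_natCast_nonneg N) _
  positivity

end Pool.Agent.Results.MP_68a45e_nt.TypicalTuples
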